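import Pool.Agent.H.MP_135e37_an.D

set_option autoImplicit false

namespace Pool.Agent.H.MP_707689_an
open scoped ENNReal InnerProductSpace Topology
open MeasureTheory Set Filter Complex FourierTransform Pool.Agent.H.MP_135e37_an

theorem sob1 {g : ℂ → ℂ} {h : ℂ → ℝ≥0∞} (hh : Measurable h) (G : Good h)
    (H : ∀ a v : ℂ, ∀ R : ℝ, 0 ≤ R →
      ‖g (a + R • v) - g a‖ₑ ≤ ∫⁻ r in Ioc 0 R, ‖v‖ₑ * h (a + r • v))
    {L : ℂ} (hL : Tendsto g (cocompact ℂ) (𝓝 L)) : ‖g 0 - L‖ₑ * q ≤ Ps h 0 := by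
  have a1 : ∀ ξ', ‖g 0 - g ξ'‖ₑ * q ≤ Ps h 0 + Ps h ξ' := fun ξ' => by
    refine ENNReal.le_of_forall_pos_le_add fun ε hε _ => ?_
    obtain ⟨R, R1, R2⟩ := ((G (ε / ‖0 - ξ'‖ₑ) (ENNReal.div_pos (by simpa using hε.ne')
      enorm_ne_top)).2.and (eventually_ge_atTop 0)).exists
    exact (sob0 hh H 0 ξ' R2 R1).trans (add_le_add_right ENNReal.mul_div_le _)
  refine ENNReal.le_of_forall_pos_le_add fun ε hε _ => ?_
  refine le_of_tendsto (ENNReal.Tendsto.mul_const (hL.const_sub (g 0)).enorm (.inr qt)) ?_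
  filter_upwards [(G ε (by simpa using hε)).1] with t x
  exact (a1 _).trans (add_le_add_right x _)

theorem shift {p : ℂ → Prop} (h : ∀ᶠ ξ in cocompact ℂ, p ξ) (ρ : ℝ) :
    ∀ᶠ a in cocompact ℂ, ∀ w, ‖w‖ ≤ ρ → p (a + w) := by
  rw [← Metric.cobounded_eq_cocompact, ← comap_norm_atTop] at h ⊢
  obtain ⟨r, hr⟩ := eventually_atTop.1 (eventually_comap.1 h)
  refine eventually_comap.2 (eventually_atTop.2 ⟨r + ρ, ?_⟩)
  rintro _ ha a rfl w hw
  refine hr _ ?_ _ rfl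
  have := norm_sub_le (a + w) w
  rw [add_sub_cancel_right] at this
  linarith

variable {H : Type} [NormedAddCommGroup H] [InnerProductSpace ℂ H] [CompleteSpace H]

theorem cpt' {T : H →L[ℂ] H} {G : ℕ → H →L[ℂ] H} {n : ℕ → ℕ} (G1 : ∀ k, Rk (G k) (n k))
    (G2 : Tendsto G atTop (𝓝 T)) {Z : ℂ → H} {α : ℝ} (hα : ∀ t, ‖Z t‖ ≤ α)
    (hZ : ∀ u, Tendsto (fun t => ⟪u, Z t⟫_ℂ) (cocompact ℂ) (𝓝 0)) {ε : ℝ} (hε : 0 < ε) :
    ∀ᶠ t in cocompact ℂ, ‖T (Z t)‖ < ε := by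
  have a : ∀ k, Tendsto (fun t => G k (Z t)) (cocompact ℂ) (𝓝 0) := fun k => by
    obtain ⟨m, -, e, u, -, -, h⟩ := (G1 k).exp
    simp only [h]
    simpa using tendsto_finset_sum Finset.univ fun i _ =>
      ((hZ (u i)).const_mul (‖G k‖ : ℂ)).smul_const (e i)
  have b := (tendsto_iff_norm_sub_tendsto_zero.1 G2).mul_const α
  rw [zero_mul] at b
  obtain ⟨k, hk⟩ := (b.eventually (gt_mem_nhds (half_pos hε))).exists
  filter_upwards [NormedAddGroup.tendsto_nhds_zero.1 (a k) _ (half_pos hε)] with t ht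
  have c := norm_sub_le (G k (Z t)) ((G k - T) (Z t))
  have d := (G k - T).le_opNorm_of_le (hα t)
  rw [_root_.sub_apply, sub_sub_cancel, ← _root_.sub_apply] at c
  linarith

variable {α β : ℝ} {C C' : ℝ≥0∞}

theorem tail (ct : C + C' ≠ ⊤) {T : H →L[ℂ] H} {G : ℕ → H →L[ℂ] H}
    (G1 : ∀ k, Rk (G k) (4 ^ k)) (G2 : Tendsto G atTop (𝓝 T))
    (G3 : Summable fun k => (2 : ℝ) ^ k * ‖G (k + 1) - G k‖) {ε : ℝ≥0∞} (hε : 0 < ε) :
    ∃ k, ∀ X Y : ℂ → H, Sv X α C → Sv Y β C' → ∀ ξ, Ps (hh X Y (T - G k)) ξ ≤ ε := by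
  set c := ENNReal.ofReal (α * β) * q + 5 * (C + C')
  have c0 : c ≠ ⊤ := by have := qt; finiteness
  have a0 : Summable fun k => ‖G (k + 1) - G k‖ :=
    Summable.of_nonneg_of_le (fun _ => norm_nonneg _) (fun j =>
        le_mul_of_one_le_left (norm_nonneg _) (one_le_pow₀ one_le_two)) G3
  have a2 : ∀ k, HasSum (fun j => G (j + k + 1) - G (j + k)) (T - G k) := fun k => by
    rw [hasSum_iff_tendsto_nat_of_summable_norm (f := fun j => G (j + k + 1) - G (j + k))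
      ((summable_nat_add_iff (f := fun k => ‖G (k + 1) - G k‖) k).2 a0)]
    have := ((tendsto_add_atTop_iff_nat k).2 G2).sub_const (G k)
    refine this.congr fun n => ?_
    have := Finset.sum_range_sub (fun j => G (j + k)) n
    simp only [zero_add, add_right_comm _ 1 k] at this
    exact this.symm
  have t1 : Tendsto (fun k => c * ∑' j, ENNReal.ofReal (2 ^ (j + k) * ‖G (j + k + 1) - G (j + k)‖))
      atTop (𝓝 0) := by
    have := ENNReal.Tendsto.const_mul (a := c) (ENNReal.tendsto_sum_nat_add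
      (fun k => ENNReal.ofReal (2 ^ k * ‖G (k + 1) - G k‖)) G3.tsum_ofReal_ne_top) (.inr c0)
    rwa [mul_zero] at this
  obtain ⟨k, k1⟩ := (t1.eventually (ge_mem_nhds hε)).exists
  refine ⟨k, fun X Y hX hY ξ => ?_⟩
  have a1 : ∀ k ξ, Ps (hh X Y (G (k + 1) - G k)) ξ ≤
      c * ENNReal.ofReal (2 ^ k * ‖G (k + 1) - G k‖) := fun k ξ => by
    refine (Ps_le (hm hX hY _) ξ (ρ := 2 ^ k) (by positivity) fun _ _ _ _ => hb hX hY _ _).trans ?_
    refine (add_le_add_right (mul_le_mul_right (fr hX hY ((G1 (k + 1)).sub (G1 k))) _) _).trans_eq ?_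
    have e : ENNReal.ofReal (2 ^ k)⁻¹ * ((4 ^ (k + 1) + 4 ^ k : ℕ) : ℝ≥0∞) =
        5 * ENNReal.ofReal (2 ^ k) := by
      rw [← ENNReal.ofReal_natCast, ← ENNReal.ofReal_mul (by positivity),
        ← ENNReal.ofReal_ofNat 5, ← ENNReal.ofReal_mul (by positivity)]
      congr 1
      have : (4 : ℝ) ^ k = 2 ^ k * 2 ^ k := by rw [← mul_pow]; norm_num
      push_cast
      rw [pow_succ, this]
      field_simp
      norm_num
    rw [← mul_assoc (ENNReal.ofReal _), e, ENNReal.ofReal_mul (norm_nonneg _),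
      ENNReal.ofReal_mul (p := 2 ^ k) (by positivity), ofReal_norm]
    simp only [c]
    ring
  refine (Ps_tsum (fun z => ?_) (fun j => hm hX hY (G (j + k + 1) - G (j + k))) ξ).trans
    ((ENNReal.tsum_le_tsum fun j => a1 _ ξ).trans (ENNReal.tsum_mul_left.trans_le k1))
  have := ((innerSL ℂ (Y z)).comp (ContinuousLinearMap.apply ℂ H (X z))).hasSum (a2 k)
  exact le_trans (le_of_eq (congrArg enorm this.tsum_eq.symm)) enorm_tsum_le_tsum_enorm

theorem svT {X : ℂ → H} (hX : Sv X α C) (a : ℂ) {T : H →L[ℂ] H} (hT : ∀ z, ‖T z‖ ≤ ‖z‖) :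
    Sv (fun ζ => T (X (a + ζ))) α C := by
  refine ⟨T.continuous.comp (hX.c.comp (by fun_prop)), fun ζ => (hT _).trans (hX.b _), hX.t,
    fun u hu => ?_⟩
  simp only [← ContinuousLinearMap.adjoint_inner_left T]
  rw [lintegral_add_left_eq_self (fun ζ => ‖⟪T.adjoint u, X ζ⟫_ℂ‖ₑ ^ 2)]
  refine hX.s _ ((T.adjoint.le_opNorm u).trans (mul_le_one₀ ?_ (norm_nonneg _) hu))
  rw [LinearIsometryEquiv.norm_map]
  exact T.opNorm_le_bound zero_le_one (by simpa using hT)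

theorem unif {X : ℂ → H} (hX : Sv X α C) (wk : ∀ u, Tendsto (fun t => ⟪u, X t⟫_ℂ) (cocompact ℂ) (𝓝 0))
    {T : H →L[ℂ] H} (p : Ap T) {ε : ℝ≥0∞} (hε : 0 < ε) :
    ∀ᶠ a in cocompact ℂ, ∀ Y, Sv Y α C → Ps (hh (fun ζ => X (a + ζ)) Y T) 0 ≤ ε := by
  obtain ⟨G, G1, G2, G3⟩ := p
  have h2 := ENNReal.half_pos hε.ne'
  have h4 := ENNReal.half_pos h2.ne'
  have ct : C + C ≠ ⊤ := ENNReal.add_ne_top.2 ⟨hX.t, hX.t⟩
  obtain ⟨k, hk⟩ := tail (α := α) (β := α) ct G1 G2 G3 h2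
  have t1 := ENNReal.Tendsto.mul_const (b := (4 ^ k : ℕ) * (‖G k‖ₑ * (C + C)))
    (ENNReal.tendsto_ofReal (tendsto_inv_atTop_zero (𝕜 := ℝ))) (.inr (by finiteness))
  rw [ENNReal.ofReal_zero, zero_mul] at t1
  obtain ⟨ρ, r1, r2⟩ := ((t1.eventually (ge_mem_nhds h4)).and (eventually_gt_atTop 0)).exists
  have t2 : Tendsto (fun δ : ℝ => ENNReal.ofReal (α * δ) * q * ENNReal.ofReal ρ) (𝓝[>] 0) (𝓝 0) := by
    have := ENNReal.Tendsto.mul_const (b := q * ENNReal.ofReal ρ) (ENNReal.tendsto_ofReal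
      ((tendsto_id.mono_left (nhdsWithin_le_nhds (a := (0 : ℝ)) (s := Ioi 0))).const_mul α))
      (.inr (ENNReal.mul_ne_top qt ENNReal.ofReal_ne_top))
    simpa [mul_assoc] using this
  obtain ⟨δ, d1, d2⟩ := ((t2.eventually (ge_mem_nhds h4)).and self_mem_nhdsWithin).exists
  filter_upwards [shift (cpt' (G := fun _ => G k) (fun _ => G1 k) tendsto_const_nhds hX.b wk d2) ρ]
    with a ha Y hY
  have sa : Sv (fun ζ => X (a + ζ)) α C := svT hX a (T := 1) fun _ => le_rfl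
  refine (Ps_add (h₂ := hh _ Y (T - G k)) (fun z => ?_) (hm sa hY (G k)) 0).trans
    ((add_le_add ?_ (hk _ _ sa hY 0)).trans_eq (ENNReal.add_halves ε))
  · refine le_trans (le_of_eq ?_) (enorm_add_le _ _)
    rw [hh, ← inner_add_right, _root_.sub_apply, add_sub_cancel]
  · refine (Ps_le (hm sa hY _) 0 r2 (a := ENNReal.ofReal (α * δ)) fun r hr s hs => ?_).trans
      ((add_le_add d1 ((mul_le_mul_right (fr sa hY (G1 k)) _).trans r1)).trans_eq
        (ENNReal.add_halves _))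
    rw [hh, ← ofReal_norm]
    refine ENNReal.ofReal_le_ofReal ((norm_inner_le_norm _ _).trans (mul_le_mul (hY.b _)
      (ha _ ?_).le (norm_nonneg _) ((norm_nonneg _).trans (hY.b 0))))
    rw [zero_add, norm_smul, Real.norm_of_nonneg hr.1.le]
    exact (mul_le_of_le_one_right hr.1.le (mem_ball_zero_iff.1 hs).le).trans hr.2

end Pool.Agent.H.MP_707689_an
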