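import Pool.Agent.H.MP_707689_an.A

set_option autoImplicit false

namespace Pool.Agent.H.MP_707689_an
open scoped ENNReal InnerProductSpace Topology
open MeasureTheory Set Filter Complex FourierTransform Pool.Agent.H.MP_135e37_an

variable {H : Type} [NormedAddCommGroup H] [InnerProductSpace ℂ H] [CompleteSpace H]
  {A B A' B' : H →L[ℂ] H}

theorem grad2 (h : Grp (UU A B)) (sA : IsSelfAdjoint A) (sB : IsSelfAdjoint B)
    (sA' : IsSelfAdjoint A') (sB' : IsSelfAdjoint B') {T : H →L[ℂ] H}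
    (c1 : ∀ z, A' (T z) = T (A' z)) (c2 : ∀ z, B' (T z) = T (B' z)) (x : H) (p r : ℂ)
    (a v : ℂ) (R : ℝ) (hR : 0 ≤ R) :
    ‖((2 * Real.pi : ℝ) : ℂ)⁻¹ * ⟪T (UU A B (r + (a + R • v)) x), UU A B (p + (a + R • v)) x⟫_ℂ -
      ((2 * Real.pi : ℝ) : ℂ)⁻¹ * ⟪T (UU A B (r + a) x), UU A B (p + a) x⟫_ℂ‖ₑ ≤
      ∫⁻ t in Ioc 0 R, ‖v‖ₑ *
      ((hh (fun ξ => UU A B (p + ξ) x) (fun ξ => T (UU A B (r + ξ) x)) (A - A') (a + t • v) +
        hh (fun ξ => UU A B (r + ξ) x) (fun ξ => T.adjoint (UU A B (p + ξ) x)) (A - A') (a + t • v)) +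
      (hh (fun ξ => UU A B (p + ξ) x) (fun ξ => T (UU A B (r + ξ) x)) (B - B') (a + t • v) +
        hh (fun ξ => UU A B (r + ξ) x) (fun ξ => T.adjoint (UU A B (p + ξ) x)) (B - B') (a + t • v))) := by
  have c3 : ∀ p : ℂ, Continuous fun t : ℝ => UU A B (p + a + t • v) x :=
    fun p => (UU_c x).comp (by fun_prop)
  have c4 := c3 p
  have c5 := c3 r
  have sa : ∀ {S : H →L[ℂ] H}, IsSelfAdjoint S → ∀ y z, ⟪S y, z⟫_ℂ = ⟪y, S z⟫_ℂ :=
    fun hS y z => hS.isSymmetric y z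
  have := ftc (φ' := fun t : ℝ => -I *
    (v.re * (⟪T (UU A B (r + a + t • v) x), (A - A') (UU A B (p + a + t • v) x)⟫_ℂ -
      ⟪(A - A') (UU A B (r + a + t • v) x), T.adjoint (UU A B (p + a + t • v) x)⟫_ℂ) +
      v.im * (⟪T (UU A B (r + a + t • v) x), (B - B') (UU A B (p + a + t • v) x)⟫_ℂ -
      ⟪(B - B') (UU A B (r + a + t • v) x), T.adjoint (UU A B (p + a + t • v) x)⟫_ℂ)))
    (φ := fun t : ℝ => ((2 * Real.pi : ℝ) : ℂ)⁻¹ *
      ⟪T (UU A B (r + a + t • v) x), UU A B (p + a + t • v) x⟫_ℂ) (fun t => by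
      refine (((((T.restrictScalars ℝ).hasFDerivAt.comp_hasDerivAt t
        (UU_d h (r + a) v x t))).inner ℂ (UU_d h (p + a) v x t)).const_mul _).congr_deriv ?_
      have : (Real.pi : ℂ) ≠ 0 := ofReal_ne_zero.2 Real.pi_ne_zero
      simp only [XX, _root_.add_apply, _root_.smul_apply, _root_.sub_apply, Function.comp,
        inner_add_right, inner_smul_right, inner_sub_right, inner_sub_left, inner_add_left,
        ContinuousLinearMap.coe_restrictScalars', map_add, map_smul, inner_smul_left,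
        ContinuousLinearMap.adjoint_inner_right, ← sa sA', ← sa sB', c1, c2, map_mul, conj_ofReal,
        conj_I, map_sub]
      push_cast
      field_simp
      ring) (by fun_prop) hR
  simp only [zero_smul, add_zero] at this
  simp only [hh, ← add_assoc r, ← add_assoc p]
  refine this.trans (lintegral_mono fun t => ?_)
  have n : ∀ t : ℝ, |t| ≤ ‖v‖ → ‖(t : ℂ)‖ₑ ≤ ‖v‖ₑ := fun t ht =>
    enorm_le_iff_norm_le.2 (by rwa [norm_real])
  have : ‖-I‖ₑ = 1 := by rw [← ofReal_norm]; simp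
  have e : ∀ (a : ℂ) (y z : H), ‖a - ⟪y, z⟫_ℂ‖ₑ ≤ ‖a‖ₑ + ‖⟪z, y⟫_ℂ‖ₑ := fun a y z => by
    rw [← ofReal_norm ⟪z, y⟫_ℂ, norm_inner_symm, ofReal_norm]
    exact enorm_sub_le
  rw [enorm_mul, this, one_mul, mul_add (‖v‖ₑ)]
  refine (enorm_add_le _ _).trans (add_le_add ?_ ?_) <;> rw [enorm_mul]
  · exact mul_le_mul' (n _ (abs_re_le_norm v)) (e _ _ _)
  · exact mul_le_mul' (n _ (abs_im_le_norm v)) (e _ _ _)

theorem lim (g : Grp (UU A B)) (g' : Grp (UU A' B')) (sA' : IsSelfAdjoint A')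
    (sB' : IsSelfAdjoint B') (p1 : Ap (A - A')) (p2 : Ap (B - B')) {x : H}
    (wk : ∀ u, Tendsto (fun t => ⟪u, UU A B t x⟫_ℂ) (cocompact ℂ) (𝓝 0)) (p r : ℂ) :
    Tendsto (fun ξ => ((2 * Real.pi : ℝ) : ℂ)⁻¹ *
      ⟪UU A' B' (p - r) (UU A B (r + ξ) x), UU A B (p + ξ) x⟫_ℂ) (cocompact ℂ)
      (𝓝 (((2 * Real.pi : ℝ) : ℂ)⁻¹ * ⟪x, x⟫_ℂ)) := by
  obtain ⟨G, G1, G2, -⟩ := p1
  obtain ⟨F, F1, F2, -⟩ := p2
  rw [Metric.tendsto_nhds]
  intro ε hε
  obtain ⟨δ, d1, d2⟩ := exists_pos_mul_lt hε (‖p - r‖ * (2 * ‖x‖))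
  have nb := fun t => (g.nm t x).le
  filter_upwards [shift ((cpt' G1 G2 nb wk d1).and (cpt' F1 F2 nb wk d1)) (‖p - r‖ + ‖r‖)] with ξ hξ
  have := grad g g' sA' sB' (UU A B (r + ξ) x) (UU A B (r + ξ) x) 0 (p - r) 1 zero_le_one
  rw [zero_add, one_smul, g.zero, g'.zero, ← g.add, g.adj (r + ξ), ← g.add, neg_add_cancel, g.zero,
    show p - r + (r + ξ) = p + ξ by ring] at this
  rw [dist_eq_norm]
  refine lt_of_le_of_lt ?_ d2
  rw [← ENNReal.ofReal_le_ofReal_iff (by positivity), ofReal_norm]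
  refine this.trans ((setLIntegral_mono' measurableSet_Ioc fun t ht => ?_).trans_eq
    ((setLIntegral_const _ (ENNReal.ofReal (‖p - r‖ * (2 * ‖x‖) * δ))).trans (by simp)))
  have hw := hξ (t • (p - r) + r) ((norm_add_le _ _).trans (by
    rw [norm_smul, Real.norm_of_nonneg ht.1.le]
    exact add_le_add_left (mul_le_of_le_one_left (norm_nonneg _) ht.2) _))
  have b : ∀ S : H →L[ℂ] H, ‖S (UU A B (ξ + (t • (p - r) + r)) x)‖ < δ →
      hh (fun a => UU A B a (UU A B (r + ξ) x)) (fun a => UU A' B' a (UU A B (r + ξ) x)) S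
        (0 + t • (p - r)) ≤ ENNReal.ofReal (‖x‖ * δ) := fun S hS => by
    rw [hh, ← ofReal_norm, ← g.add, show 0 + t • (p - r) + (r + ξ) = ξ + (t • (p - r) + r) by ring]
    refine ENNReal.ofReal_le_ofReal ((norm_inner_le_norm _ _).trans ?_)
    rw [g'.nm, g.nm]
    gcongr
  refine (mul_le_mul_right (add_le_add (b _ hw.1) (b _ hw.2)) _).trans_eq ?_
  rw [← ENNReal.ofReal_add (by positivity) (by positivity), ← ofReal_norm,
    ← ENNReal.ofReal_mul (norm_nonneg _)]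
  congr 1
  ring

theorem main (sA : IsSelfAdjoint A) (sB : IsSelfAdjoint B) (sA' : IsSelfAdjoint A')
    (sB' : IsSelfAdjoint B') (c : Commute A B) (c' : Commute A' B') (p1 : Ap (A - A'))
    (p2 : Ap (B - B'))
    (hf : ∀ x, ∃ f : ℂ → ℂ, Integrable f ∧ ∀ ξ, ⟪x, UU A B ξ x⟫_ℂ = 𝓕 f ξ)
    {u : ℝ → ℂ} (hu : Tendsto u atTop (cocompact ℂ)) (x : H) :
    ∃ y, Tendsto (fun t => UU A' B' (-u t) (UU A B (u t) x)) atTop (𝓝 y) := by
  have g := grp sA sB c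
  have g' := grp sA' sB' c'
  have key : ∀ x, Sm (UU A B) x → ∀ ε, 0 < ε → ∀ᶠ z : ℝ × ℝ in atTop ×ˢ atTop,
      ‖UU A' B' (-u z.1) (UU A B (u z.1) x) - UU A' B' (-u z.2) (UU A B (u z.2) x)‖ < ε := by
    rintro x ⟨C, C1, C2⟩ ε hε
    have wk : ∀ y, Tendsto (fun t => ⟪y, UU A B t x⟫_ℂ) (cocompact ℂ) (𝓝 0) := fun y => by
      obtain ⟨f, fi, hf⟩ := hf x
      exact weak g fi hf y
    have sx : Sv (fun ξ => UU A B ξ x) ‖x‖ C := ⟨UU_c x, fun ξ => (g.nm _ _).le, C1, C2⟩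
    obtain ⟨δ, d1, d2⟩ := exists_pos_mul_lt (pow_pos hε 2) (2 * (2 * Real.pi * 4))
    have e0 : 0 < ENNReal.ofReal δ * q := ENNReal.mul_pos (by simpa using d1) q0
    have ev := hu.eventually ((unif sx wk p1 e0).and (unif sx wk p2 e0))
    filter_upwards [ev.prod_mk ev] with z hz
    obtain ⟨⟨a1, a2⟩, b1, b2⟩ := hz
    set p := u z.1
    set r := u z.2
    set T := UU A' B' (p - r)
    have n1 : ∀ z, ‖T z‖ ≤ ‖z‖ := fun z => (g'.nm _ _).le
    have n2 : ∀ z, ‖T.adjoint z‖ ≤ ‖z‖ := fun z => (T.adjoint.le_opNorm z).trans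
      (mul_le_of_le_one_left (norm_nonneg _) (by
        rw [LinearIsometryEquiv.norm_map]
        exact T.opNorm_le_bound zero_le_one (by simpa using n1)))
    have sp : Sv (fun ζ => UU A B (p + ζ) x) ‖x‖ C := svT sx p (T := 1) fun _ => le_rfl
    have sr : Sv (fun ζ => UU A B (r + ζ) x) ‖x‖ C := svT sx r (T := 1) fun _ => le_rfl
    have tp := svT sx p n2
    have tr := svT sx r n1
    obtain ⟨G, G1, G2, G3⟩ := p1
    obtain ⟨F, F1, F2, F3⟩ := p2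
    have m1 := (hm sp tr (A - A')).add (hm sr tp (A - A'))
    have := sob1 (m1.add ((hm sp tr (B - B')).add (hm sr tp (B - B'))))
      (good_add m1 (good_add (hm sp tr _) (goodT sp tr G1 G2 G3) (goodT sr tp G1 G2 G3))
        (good_add (hm sp tr _) (goodT sp tr F1 F2 F3) (goodT sr tp F1 F2 F3)))
      (grad2 g sA sB sA' sB' (UU_sc (Commute.refl A') c' _) (UU_sc c'.symm (Commute.refl B') _)
        x p r) (lim g g' sA' sB' ⟨G, G1, G2, G3⟩ ⟨F, F1, F2, F3⟩ wk p r)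
    replace := this.trans ((Ps_add (fun _ => le_rfl) m1 0).trans (add_le_add
      ((Ps_add (fun _ => le_rfl) (hm sp tr _) 0).trans (add_le_add (a1 _ tr) (b1 _ tp)))
      ((Ps_add (fun _ => le_rfl) (hm sp tr _) 0).trans (add_le_add (a2 _ tr) (b2 _ tp)))))
    rw [← add_mul, ← add_mul, ENNReal.mul_le_mul_iff_left q0 qt, ← ENNReal.ofReal_add d1.le d1.le,
      ← ENNReal.ofReal_add (by positivity) (by positivity), ← ofReal_norm,
      ENNReal.ofReal_le_ofReal_iff (by positivity), ← mul_sub, norm_mul, norm_inv, norm_real,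
      Real.norm_of_nonneg Real.two_pi_pos.le, inv_mul_le_iff₀ Real.two_pi_pos, add_zero, add_zero,
      show T (UU A B r x) = UU A' B' p (UU A' B' (-r) (UU A B r x)) by
        rw [← g'.add, ← sub_eq_add_neg], g'.adj, inner_self_eq_norm_sq_to_K] at this
    refine lt_of_pow_lt_pow_left₀ 2 hε.le ?_
    rw [norm_sub_rev, @norm_sub_sq ℂ, g'.nm, g'.nm, g.nm, g.nm]
    have h1 := (abs_le.1 ((abs_re_le_norm _).trans this)).1
    rw [sub_re] at h1
    have h2 : (((‖x‖ : ℝ) : ℂ) ^ 2).re = ‖x‖ ^ 2 := by rw [← ofReal_pow, ofReal_re]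
    erw [h2] at h1
    rw [RCLike.re_to_complex]
    linarith
  refine cauchySeq_tendsto_of_complete (Metric.cauchySeq_iff.2 fun ε hε => ?_)
  obtain ⟨y, y1, y2⟩ := Metric.mem_closure_iff.1 (smd g hf x) (ε / 3) (by positivity)
  obtain ⟨N, hN⟩ := eventually_atTop_prod_self'.1
    (prod_atTop_atTop_eq (α := ℝ) (β := ℝ) ▸ key y y1 (ε / 3) (by positivity))
  refine ⟨N, fun m hm n hn => ?_⟩
  have e : ∀ t, dist (UU A' B' (-u t) (UU A B (u t) x)) (UU A' B' (-u t) (UU A B (u t) y)) =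
      dist x y := fun t => by rw [dist_eq_norm, ← map_sub, ← map_sub, g'.nm, g.nm, dist_eq_norm]
  have := dist_triangle4 (UU A' B' (-u m) (UU A B (u m) x)) (UU A' B' (-u m) (UU A B (u m) y))
    (UU A' B' (-u n) (UU A B (u n) y)) (UU A' B' (-u n) (UU A B (u n) x))
  rw [e, dist_comm (UU A' B' (-u n) (UU A B (u n) y)), e] at this
  have := hN m hm n hn
  simp only [← dist_eq_norm] at this
  linarith

theorem ex1 (s t : ℝ) (c : Commute A B) :
    (∑' n : ℕ, ((n.factorial : ℂ)⁻¹) • ((I * (s : ℂ)) • A) ^ n) *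
      (∑' n : ℕ, ((n.factorial : ℂ)⁻¹) • ((I * (t : ℂ)) • B) ^ n) =
      NormedSpace.exp (((s : ℂ) * I) • A + ((t : ℂ) * I) • B) := by
  letI : NormedAlgebra ℚ (H →L[ℂ] H) := .restrictScalars ℚ ℂ _
  rw [NormedSpace.exp_add_of_commute ((c.smul_left _).smul_right _), NormedSpace.exp_eq_tsum ℂ,
    mul_comm I, mul_comm I]

theorem ac {μ : Measure (ℝ × ℝ)} [IsFiniteMeasure μ] (h : μ ≪ volume) :
    ∃ k : ℂ → ℂ, Integrable k ∧ ∀ ξ : ℂ, ∫ p, Complex.exp (I * (((-2 * Real.pi * ξ.re) * p.1 +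
      (-2 * Real.pi * ξ.im) * p.2 : ℝ) : ℂ)) ∂μ = 𝓕 k ξ := by
  obtain ⟨k, k1, k2⟩ := tr (f := fun p => ((μ.rnDeriv volume p).toReal : ℂ))
    Measure.integrable_toReal_rnDeriv.ofReal
  refine ⟨k, k1, fun ξ => ?_⟩
  rw [← k2, ← integral_rnDeriv_smul h]
  refine integral_congr_ae (.of_forall fun p => ?_)
  simp only [real_smul]
  push_cast
  rfl

theorem ray0 : ∃ u : ℝ → ℂ, Tendsto u atTop (cocompact ℂ) ∧ ∀ (A B : H →L[ℂ] H) (t : ℝ),
    (∑' n : ℕ, ((n.factorial : ℂ)⁻¹) • ((I * (t : ℂ)) • A) ^ n) = UU A B (u t) ∧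
    (∑' n : ℕ, ((n.factorial : ℂ)⁻¹) • ((-(I * (t : ℂ))) • A) ^ n) = UU A B (-u t) := by
  obtain ⟨u, hu, e⟩ := ray (H := H) 0
  refine ⟨u, hu, fun A B t => ?_⟩
  have := e A B t
  rw [Real.cos_zero, Real.sin_zero, ofReal_one, ofReal_zero, one_smul, zero_smul, add_zero,
    mul_comm] at this
  rw [UU, UU, XX_neg, ← this, neg_smul, NormedSpace.exp_eq_tsum ℂ]
  exact ⟨rfl, rfl⟩

end Pool.Agent.H.MP_707689_an
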